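import Pool.Agent.R895.LemB

/-!
# Project KB (helper69), MP_9f99c5_ag: blow-ups of `E ^ n / μ_m`, `n ≤ 6`.  Statements of the bricks.

`om` = `ω`, `IsEis` (Eisenstein integers), `IsLat` (vectors of Eisenstein integers), `IsGL`, `q`
(value of a hermitian form), `Pd`, `Psd`, `tl`, `hs` are in `Pool/Agent/R895`.
-/

set_option autoImplicit false

namespace Pool.Agent.K3h69.KB

open Matrix Pool.Agent.R895 Complex

/-- **BLI**: Blichfeldt's bound for hermitian forms over the Eisenstein integers. -/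
def S_BLI : Prop := ∀ (n : ℕ) (H : Matrix (Fin n) (Fin n) ℂ), 1 ≤ n → Pd H → ∀ h : ℝ, 0 < h →
  (∀ w, IsLat w → w ≠ 0 → h ≤ q H w) →
  (Real.pi / 2 * h) ^ n ≤ (n + 1).factorial * (√3 / 2) ^ n * H.det.re

/-- **UNI**: a lattice vector is a multiple of a column of an element of `GL_n(ℤ[ω])`. -/
def S_UNI : Prop := ∀ (n : ℕ) (w : Fin (n + 1) → ℂ), IsLat w → w ≠ 0 →
  ∃ (g : Matrix (Fin (n + 1)) (Fin (n + 1)) ℂ) (c : ℂ), IsGL g ∧ IsEis c ∧ c ≠ 0 ∧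
    w = c • (g *ᵥ (Pi.single 0 1))

/-- **HKZ**: reduced bases; the first seven properties are those of `R895.exists_red`, the last
one says that `m k` is the minimum of the projected lattice. -/
def S_HKZ : Prop := ∀ (n : ℕ) (M : Matrix (Fin n) (Fin n) ℂ), Pd M →
    ∃ (g : Matrix (Fin n) (Fin n) ℂ) (x : Fin n → Fin n → ℂ) (m : Fin n → ℝ), IsGL g ∧
      (∀ i, 0 < m i) ∧ (∀ i j : Fin n, (i : ℕ) + 1 = j → 2 / 3 * m i ≤ m j) ∧
      (∀ i, x i i = 1) ∧ (∀ i j, j < i → x i j = 0) ∧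
      (∀ i j, i < j → Complex.normSq (x i j) ≤ 1 / 3) ∧
      gᴴ * M * g = ∑ i, (m i : ℂ) • vecMulVec (x i) (star (x i)) ∧
      ∀ (k : Fin n) (w : Fin n → ℂ), IsLat w → (∃ j, k ≤ j ∧ w j ≠ 0) →
        m k ≤ ∑ i ∈ Finset.univ.filter (k ≤ ·), m i * Complex.normSq (star (x i) ⬝ᵥ w)

/-- **QIN**: an inequality of tetracode type. -/
def S_QIN : Prop := ∀ z x : ℂ, ∃ a b c d : ℂ, IsEis a ∧ IsEis b ∧ IsEis c ∧ IsEis d ∧
  normSq (z - a) + normSq (z - x - b) + normSq (z - (1 + om) * x - c) + normSq (x - d) ≤ 1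

/-- **PAIR**: the covering radius of reduced lattices of rank two. -/
def S_PAIR : Prop := ∀ (x : ℂ) (b : ℝ), 0 ≤ b → b ≤ 1 →
  (∀ e, IsEis e → 1 - b ≤ normSq (x - e)) → ∀ t₀ t₁ : ℂ,
  ∃ v₀ v₁ : ℂ, IsEis v₀ ∧ IsEis v₁ ∧
    normSq (t₀ - v₀ - x * v₁) + b * normSq (t₁ - v₁) ≤ 1 / 6 + b / 2

/-- **NUM**: the final combination in dimension six. -/
def S_NUM : Prop := ∀ (K : Matrix (Fin 6) (Fin 6) ℂ), Pd K → ∀ h : ℝ, 0 < h →
  (∀ w, IsLat w → w ≠ 0 → h ≤ q K w) → ∀ m : Fin 6 → ℝ, (∀ i, 0 < m i) →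
  (∀ i j : Fin 6, (i : ℕ) + 1 = j → 2 / 3 * m i ≤ m j) →
  h * (m 5 + (m 2 + m 3 + m 4) / 3 + min ((m 0 + m 1) / 3) (m 0 / 6 + m 1 / 2)) ≤
    ∑ i, m i * hs 6 K i

end Pool.Agent.K3h69.KB
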