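import Pool.Agent.K3h69.KB.Stm

/-! Project KB: determinants, the case `J = 0`. -/

set_option autoImplicit false

namespace Pool.Agent.K3h69.KB

open Matrix Pool.Agent.R895

variable {n : ℕ}

theorem det6 (hB : S_BLI) {H : Matrix (Fin 6) (Fin 6) ℂ} (hH : Pd H) {h : ℝ} (hh : 0 < h)
    (hmin : ∀ w, IsLat w → w ≠ 0 → h ≤ q H w) : h ^ 6 / 144 ≤ H.det.re := by
  have h1 := hB 6 H (by norm_num) hH h hh hmin
  have h2 : (√3 / 2 : ℝ) ^ 6 = 27 / 64 := by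
    have : √3 ^ 2 = (3 : ℝ) := Real.sq_sqrt (by norm_num)
    calc (√3 / 2 : ℝ) ^ 6 = (√3 ^ 2) ^ 3 / 64 := by ring
      _ = _ := by rw [this]; norm_num
  have h3 : ((6 + 1).factorial : ℝ) = 5040 := by norm_num [Nat.factorial]
  rw [h2, h3] at h1
  have hpi := Real.pi_gt_d2
  have h4 : (945 : ℝ) ≤ Real.pi ^ 6 := by
    calc (945 : ℝ) ≤ 3.14 ^ 6 := by norm_num
      _ ≤ _ := pow_le_pow_left₀ (by norm_num) hpi.le 6
  have h5 : (Real.pi / 2 * h) ^ 6 = Real.pi ^ 6 * h ^ 6 / 64 := by ring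
  rw [h5] at h1
  have h6 : 0 < h ^ 6 := by positivity
  nlinarith

theorem det5 (hB : S_BLI) {H : Matrix (Fin 5) (Fin 5) ℂ} (hH : Pd H) {h : ℝ} (hh : 0 < h)
    (hmin : ∀ w, IsLat w → w ≠ 0 → h ≤ q H w) : h ^ 5 / 37 ≤ H.det.re := by
  have h1 := hB 5 H (by norm_num) hH h hh hmin
  have hs : √3 ≤ (1.7321 : ℝ) := by
    rw [Real.sqrt_le_left (by norm_num)]
    norm_num
  have hs0 := Real.sqrt_nonneg (3 : ℝ)
  have h2 : (√3 / 2 : ℝ) ^ 5 ≤ 9 * 1.7321 / 32 := by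
    have : √3 ^ 2 = (3 : ℝ) := Real.sq_sqrt (by norm_num)
    calc (√3 / 2 : ℝ) ^ 5 = (√3 ^ 2) ^ 2 * √3 / 32 := by ring
      _ ≤ _ := by rw [this]; linarith
  have h3 : ((5 + 1).factorial : ℝ) = 720 := by norm_num [Nat.factorial]
  rw [h3] at h1
  obtain ⟨d, hd, hd0⟩ := hH.det_pos
  rw [hd, Complex.ofReal_re] at h1 ⊢
  have hpi := Real.pi_gt_d2
  have h4 : (305 : ℝ) ≤ Real.pi ^ 5 := by
    calc (305 : ℝ) ≤ 3.14 ^ 5 := by norm_num
      _ ≤ _ := pow_le_pow_left₀ (by norm_num) hpi.le 5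
  have h5 : (Real.pi / 2 * h) ^ 5 = Real.pi ^ 5 * h ^ 5 / 32 := by ring
  rw [h5] at h1
  have h6 : 0 < h ^ 5 := by positivity
  have h7 : 720 * (√3 / 2 : ℝ) ^ 5 * d ≤ 720 * (9 * 1.7321 / 32) * d := by gcongr
  have h8 : 305 * h ^ 5 ≤ Real.pi ^ 5 * h ^ 5 := by gcongr
  nlinarith

/-- The matrix of a decomposed form is positive definite. -/
theorem pd_dec (m : Fin n → ℝ) (x : Fin n → Fin n → ℂ) (hm : ∀ i, 0 < m i)
    (hd : ∀ i, x i i = 1) (hz : ∀ i j, j < i → x i j = 0) :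
    Pd (∑ i, (m i : ℂ) • vecMulVec (x i) (star (x i))) := by
  refine ⟨?_, fun v hv => ?_⟩
  · unfold IsHermitian
    rw [conjTranspose_sum]
    refine Finset.sum_congr rfl fun i _ => ?_
    rw [conjTranspose_smul, conjTranspose_vecMulVec, star_star]
    congr 1
    exact Complex.conj_ofReal _
  · rw [q_dec]
    -- the last nonzero coordinate
    have hex : ∃ j, v j ≠ 0 := by
      by_contra hcon
      push Not at hcon
      exact hv (funext hcon)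
    obtain ⟨j, hj⟩ := hex
    obtain ⟨j, hj1, hj2⟩ := Finset.exists_max_image (Finset.univ.filter fun j => v j ≠ 0) id
      ⟨j, by simp [hj]⟩
    rw [Finset.mem_filter] at hj1
    have h1 : star (x j) ⬝ᵥ v = v j := by
      rw [dotProduct, Finset.sum_eq_single j]
      · rw [Pi.star_apply, hd]; simp
      · intro i _ hij
        rcases lt_or_gt_of_ne hij with h | h
        · rw [Pi.star_apply, hz j i h]; simp
        · have : v i = 0 := by
            by_contra hne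
            have := hj2 i (by simp [hne])
            exact absurd this (not_le.2 h)
          rw [this, mul_zero]
      · intro h; exact absurd (Finset.mem_univ _) h
    refine Finset.sum_pos' (fun i _ => mul_nonneg (hm i).le (Complex.normSq_nonneg _))
      ⟨j, Finset.mem_univ _, mul_pos (hm j) ?_⟩
    rw [h1]
    exact Complex.normSq_pos.2 hj1.2

theorem lemJ5 (hB : S_BLI) {M H : Matrix (Fin 5) (Fin 5) ℂ} (hM : Pd M)
    (hH : Pd H) {h : ℝ} (hh : 0 < h) (hmin : ∀ w, IsLat w → w ≠ 0 → h ≤ q H w)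
    (hM1 : ∀ v, IsLat v → v ≠ 0 → 1 ≤ q M v) : 8 / 7 * h ≤ (M * H).trace.re := by
  obtain ⟨g, x, m, hg, hm, hch, hd, hz, hsz, hdec⟩ := exists_red 5 M hM
  obtain ⟨g', h1, h2, h3⟩ := hg.inv
  have hg' : IsGL g' := ⟨h1, g, hg.ent, h3, h2⟩
  rw [trace_dec h2 hdec H]
  set K := g' * H * g'ᴴ with hK
  have hKe : K = g'ᴴᴴ * H * g'ᴴ := by rw [conjTranspose_conjTranspose]
  have hKpd : Pd K := by rw [hKe]; exact hH.conj hg'.conjTranspose
  have hKmin : ∀ w, IsLat w → w ≠ 0 → h ≤ q K w := by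
    intro w hw hw0
    rw [hKe, q_conj]
    exact hmin _ (hg'.conjTranspose.mulVec hw) (hg'.conjTranspose.mulVec_ne hw0)
  have h4 : ∑ i, m i * hs 5 K i ≤ ∑ i, m i * q K (x i) :=
    Finset.sum_le_sum fun i _ => mul_le_mul_of_nonneg_left (hs_le 5 K hKpd x hd hz i) (hm i).le
  refine le_trans ?_ h4
  have h5 : (1 : ℝ) ^ 5 / 37 ≤ ∏ i, m i := by
    have h6 := det5 hB (hM.conj hg) one_pos (fun w hw hw0 => by
      rw [q_conj]
      exact hM1 _ (hg.mulVec hw) (hg.mulVec_ne hw0))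
    rwa [hdec, det_dec m x hd hz, Complex.ofReal_re] at h6
  have h6 := det5 hB hKpd hh hKmin
  rw [← prod_hs 5 K hKpd] at h6
  have h7 := amgm 5 (by norm_num) (fun i => m i * hs 5 K i)
    (fun i => mul_nonneg (hm i).le (hs_pos 5 K hKpd i).le)
  rw [Finset.prod_mul_distrib] at h7
  have h8 : (1 : ℝ) ^ 5 / 37 * (h ^ 5 / 37) ≤ (∏ i, m i) * ∏ i, hs 5 K i :=
    mul_le_mul h5 h6 (by positivity) (by positivity)
  set s := ∑ i, m i * hs 5 K i with hs'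
  have hs0 : 0 ≤ s := Finset.sum_nonneg fun i _ => mul_nonneg (hm i).le (hs_pos 5 K hKpd i).le
  by_contra hcon
  push Not at hcon
  have h9 : (s / (5 : ℕ)) ^ 5 ≤ (8 / 7 * h / 5) ^ 5 := by
    apply pow_le_pow_left₀ (by positivity)
    push_cast
    linarith
  have h10 := h8.trans (h7.trans h9)
  have h11 : 0 < h ^ 5 := by positivity
  have h12 : (8 / 7 * h / 5) ^ 5 = (8 / 35) ^ 5 * h ^ 5 := by ring
  rw [h12] at h10
  nlinarith

theorem lemJ6 (hB : S_BLI) {M H : Matrix (Fin 6) (Fin 6) ℂ} (hM : Pd M)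
    (hH : Pd H) {h : ℝ} (hh : 0 < h) (hmin : ∀ w, IsLat w → w ≠ 0 → h ≤ q H w)
    (hM1 : ∀ v, IsLat v → v ≠ 0 → 1 ≤ q M v) : 8 / 7 * h ≤ (M * H).trace.re := by
  obtain ⟨g, x, m, hg, hm, hch, hd, hz, hsz, hdec⟩ := exists_red 6 M hM
  obtain ⟨g', h1, h2, h3⟩ := hg.inv
  have hg' : IsGL g' := ⟨h1, g, hg.ent, h3, h2⟩
  rw [trace_dec h2 hdec H]
  set K := g' * H * g'ᴴ with hK
  have hKe : K = g'ᴴᴴ * H * g'ᴴ := by rw [conjTranspose_conjTranspose]
  have hKpd : Pd K := by rw [hKe]; exact hH.conj hg'.conjTranspose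
  have hKmin : ∀ w, IsLat w → w ≠ 0 → h ≤ q K w := by
    intro w hw hw0
    rw [hKe, q_conj]
    exact hmin _ (hg'.conjTranspose.mulVec hw) (hg'.conjTranspose.mulVec_ne hw0)
  have h4 : ∑ i, m i * hs 6 K i ≤ ∑ i, m i * q K (x i) :=
    Finset.sum_le_sum fun i _ => mul_le_mul_of_nonneg_left (hs_le 6 K hKpd x hd hz i) (hm i).le
  refine le_trans ?_ h4
  have h5 : (1 : ℝ) ^ 6 / 144 ≤ ∏ i, m i := by
    have h6 := det6 hB (hM.conj hg) one_pos (fun w hw hw0 => by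
      rw [q_conj]
      exact hM1 _ (hg.mulVec hw) (hg.mulVec_ne hw0))
    rwa [hdec, det_dec m x hd hz, Complex.ofReal_re] at h6
  have h6 := det6 hB hKpd hh hKmin
  rw [← prod_hs 6 K hKpd] at h6
  have h7 := amgm 6 (by norm_num) (fun i => m i * hs 6 K i)
    (fun i => mul_nonneg (hm i).le (hs_pos 6 K hKpd i).le)
  rw [Finset.prod_mul_distrib] at h7
  have h8 : (1 : ℝ) ^ 6 / 144 * (h ^ 6 / 144) ≤ (∏ i, m i) * ∏ i, hs 6 K i :=
    mul_le_mul h5 h6 (by positivity) (by positivity)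
  set s := ∑ i, m i * hs 6 K i with hs'
  have hs0 : 0 ≤ s := Finset.sum_nonneg fun i _ => mul_nonneg (hm i).le (hs_pos 6 K hKpd i).le
  by_contra hcon
  push Not at hcon
  have h9 : (s / (6 : ℕ)) ^ 6 ≤ (8 / 7 * h / 6) ^ 6 := by
    apply pow_le_pow_left₀ (by positivity)
    push_cast
    linarith
  have h10 := h8.trans (h7.trans h9)
  have h11 : 0 < h ^ 6 := by positivity
  have h12 : (8 / 7 * h / 6) ^ 6 = (4 / 21) ^ 6 * h ^ 6 := by ring
  rw [h12] at h10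
  nlinarith

/-- The case `J = 0` of the key inequality. -/
theorem lemJ_pd (hB : S_BLI) (hn0 : 2 ≤ n) (hn : n ≤ 6) {M H : Matrix (Fin n) (Fin n) ℂ}
    (hM : Pd M) (hH : Pd H) {h : ℝ} (hh : 0 < h) (hmin : ∀ w, IsLat w → w ≠ 0 → h ≤ q H w)
    (hM1 : ∀ v, IsLat v → v ≠ 0 → 1 ≤ q M v) : 8 / 7 * h ≤ (M * H).trace.re := by
  rcases Nat.lt_or_ge 4 n with h4 | h4
  · rcases Nat.lt_or_ge 5 n with h5 | h5
    · obtain rfl : n = 6 := by omega
      exact lemJ6 hB hM hH hh hmin hM1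
    · obtain rfl : n = 5 := by omega
      exact lemJ5 hB hM hH hh hmin hM1
  · have := lemA_pd' hn0 h4 hM hH hh hmin hM1
    linarith

theorem lemJ (hB : S_BLI) (hn0 : 2 ≤ n) (hn : n ≤ 6) {M H : Matrix (Fin n) (Fin n) ℂ} (hM : Psd M)
    (hH : Pd H) {h : ℝ} (hh : 0 < h) (hmin : ∀ w, IsLat w → w ≠ 0 → h ≤ q H w)
    (hM1 : ∀ v, IsLat v → v ≠ 0 → 1 ≤ q M v) : 8 / 7 * h ≤ (M * H).trace.re := by
  refine trace_lim fun ε hε => ?_
  obtain ⟨h1, h2⟩ := hM.add_one hε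
  refine lemJ_pd hB hn0 hn h1 hH hh hmin fun v hv hv0 => ?_
  rw [h2]
  have h3 := hM1 v hv hv0
  have h4 : 0 ≤ ∑ i, Complex.normSq (v i) := Finset.sum_nonneg fun i _ => Complex.normSq_nonneg _
  nlinarith

end Pool.Agent.K3h69.KB
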