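import Pool.Agent.K3h69.KB.Lem1

/-! Project KB: the key inequality for all `n ≤ 6`. -/

set_option autoImplicit false

namespace Pool.Agent.K3h69.KB

open Matrix Pool.Agent.R895

variable {n : ℕ}

/-- The weighted sum of the Schur complements in dimension five. -/
theorem V_ge5 (hB : S_BLI) {H : Matrix (Fin 5) (Fin 5) ℂ} (hH : Pd H) {h : ℝ}
    (hh : 0 < h) (hmin : ∀ w, IsLat w → w ≠ 0 → h ≤ q H w) :
    h ≤ ∑ i : Fin 5, (2 / 3 : ℝ) ^ (i : ℕ) * hs 5 H i := by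
  have h6 := det5 hB hH hh hmin
  rw [← prod_hs 5 H hH] at h6
  have h7 := amgm 5 (by norm_num) (fun i : Fin 5 => (2 / 3 : ℝ) ^ (i : ℕ) * hs 5 H i)
    (fun i => mul_nonneg (by positivity) (hs_pos 5 H hH i).le)
  rw [Finset.prod_mul_distrib] at h7
  set s := ∑ i : Fin 5, (2 / 3 : ℝ) ^ (i : ℕ) * hs 5 H i with hs'
  have hs0 : 0 ≤ s :=
    Finset.sum_nonneg fun i _ => mul_nonneg (by positivity) (hs_pos 5 H hH i).le
  have hp : ∏ i : Fin 5, (2 / 3 : ℝ) ^ (i : ℕ) = (2 / 3) ^ 10 := by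
    simp [Fin.prod_univ_succ]
    norm_num
  rw [hp] at h7
  by_contra hcon
  push Not at hcon
  have h8 : (2 / 3 : ℝ) ^ 10 * (h ^ 5 / 37) ≤ (2 / 3) ^ 10 * ∏ i, hs 5 H i := by gcongr
  have h9 : (s / (5 : ℕ)) ^ 5 ≤ (h / 5) ^ 5 := by
    apply pow_le_pow_left₀ (by positivity)
    push_cast
    linarith
  have h10 := h8.trans (h7.trans h9)
  have h11 : 0 < h ^ 5 := by positivity
  have h12 : (h / 5) ^ 5 = (1 / 5) ^ 5 * h ^ 5 := by ring
  rw [h12] at h10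
  nlinarith

/-- The final combination in dimension five. -/
theorem comb5 (hB : S_BLI) {H : Matrix (Fin 5) (Fin 5) ℂ} (hH : Pd H) {h : ℝ}
    (hh : 0 < h) (hmin : ∀ w, IsLat w → w ≠ 0 → h ≤ q H w) (m : Fin 5 → ℝ) (hm : ∀ i, 0 < m i)
    (hch : ∀ i j : Fin 5, (i : ℕ) + 1 = j → 2 / 3 * m i ≤ m j) (k : Fin 5) :
    h * (m k + 1 / 3 * ∑ i ∈ Finset.univ.filter (· < k), m i) ≤ ∑ i, m i * hs 5 H i := by
  have v0 := V_ge5 hB hH hh hmin
  have v1 := V_ge (by norm_num) (by norm_num) hH.tl hh (min_tl hmin)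
  have v2 := V_ge (by norm_num) (by norm_num) hH.tl.tl hh (min_tl (min_tl hmin))
  have v3 := V_ge (by norm_num) (by norm_num) hH.tl.tl.tl hh (min_tl (min_tl (min_tl hmin)))
  have v4 := V_ge (by norm_num) (by norm_num) hH.tl.tl.tl.tl hh
    (min_tl (min_tl (min_tl (min_tl hmin))))
  have c0 := hch 0 1 rfl
  have c1 := hch 1 2 rfl
  have c2 := hch 2 3 rfl
  have c3 := hch 3 4 rfl
  have p0 := hm 0
  have a0 := mul_nonneg p0.le (sub_nonneg.2 v0)
  have a1 := mul_nonneg (sub_nonneg.2 c0) (sub_nonneg.2 v1)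
  have a2 := mul_nonneg (sub_nonneg.2 c1) (sub_nonneg.2 v2)
  have a3 := mul_nonneg (sub_nonneg.2 c2) (sub_nonneg.2 v3)
  have a4 := mul_nonneg (sub_nonneg.2 c3) (sub_nonneg.2 v4)
  have b1 := mul_nonneg (sub_nonneg.2 c0) hh.le
  have b2 := mul_nonneg (sub_nonneg.2 c1) hh.le
  have b3 := mul_nonneg (sub_nonneg.2 c2) hh.le
  have b4 := mul_nonneg (sub_nonneg.2 c3) hh.le
  simp [Fin.sum_univ_succ, Finset.sum_filter, hs_succ] at a0 a1 a2 a3 a4 b1 b2 b3 b4 ⊢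
  fin_cases k <;> simp <;> nlinarith

theorem lemA5 (hB : S_BLI) {M H : Matrix (Fin 5) (Fin 5) ℂ} (hM : Pd M) (hH : Pd H) {h : ℝ}
    (hh : 0 < h) (hmin : ∀ w, IsLat w → w ≠ 0 → h ≤ q H w) {J : Set (Fin 5 → ℂ)} (hJ : IsSub J)
    (hne : ∃ v, IsLat v ∧ v ∉ J) (hMJ : ∀ v, IsLat v → v ∉ J → 1 ≤ q M v) :
    h ≤ (M * H).trace.re := by
  obtain ⟨g, x, m, hg, hm, hch, hd, hz, hsz, hdec⟩ := exists_red 5 M hM
  obtain ⟨g', h1, h2, h3⟩ := hg.inv
  have hg' : IsGL g' := ⟨h1, g, hg.ent, h3, h2⟩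
  rw [trace_dec h2 hdec H]
  set K := g' * H * g'ᴴ with hK
  have hKe : K = g'ᴴᴴ * H * g'ᴴ := by rw [conjTranspose_conjTranspose]
  have hKpd : Pd K := by rw [hKe]; exact hH.conj hg'.conjTranspose
  have hKmin : ∀ w, IsLat w → w ≠ 0 → h ≤ q K w := by
    intro w hw hw0
    rw [hKe, q_conj]
    exact hmin _ (hg'.conjTranspose.mulVec hw) (hg'.conjTranspose.mulVec_ne hw0)
  have h4 : ∑ i, m i * hs 5 K i ≤ ∑ i, m i * q K (x i) :=
    Finset.sum_le_sum fun i _ => mul_le_mul_of_nonneg_left (hs_le 5 K hKpd x hd hz i) (hm i).le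
  refine le_trans ?_ h4
  obtain ⟨k, hk⟩ : ∃ k, g *ᵥ (Pi.single k 1) ∉ J := by
    by_contra hcon
    push Not at hcon
    obtain ⟨v, hv, hvJ⟩ := hne
    apply hvJ
    have h5 : v = ∑ k, (g' *ᵥ v) k • (g *ᵥ (Pi.single k 1)) := by
      have h6 : g' *ᵥ v = ∑ k, (g' *ᵥ v) k • (Pi.single k 1 : Fin 5 → ℂ) := by
        ext i
        simp [Finset.sum_apply, Pi.single_apply]
      have h7 : g *ᵥ (g' *ᵥ v) = v := by rw [mulVec_mulVec, h2, one_mulVec]
      calc v = g *ᵥ (g' *ᵥ v) := h7.symm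
        _ = g *ᵥ (∑ k, (g' *ᵥ v) k • (Pi.single k 1 : Fin 5 → ℂ)) := by rw [← h6]
        _ = _ := by
            rw [mulVec_sum]
            exact Finset.sum_congr rfl fun k _ => mulVec_smul _ _ _
    rw [h5]
    exact hJ.sum _ _ fun k _ => hJ.smul _ (hg'.mulVec hv k) _ (hcon k)
  have h5 := hMJ _ (hg.mulVec (isLat_single k)) hk
  rw [q_single M g x m hdec k] at h5
  have h6 : ∑ i, m i * Complex.normSq (x i k) ≤
      m k + 1 / 3 * ∑ i ∈ Finset.univ.filter (· < k), m i := by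
    have h7 : ∀ i, m i * Complex.normSq (x i k) ≤
        (if i = k then m k else 0) + (if i < k then 1 / 3 * m i else 0) := by
      intro i
      rcases lt_trichotomy i k with h | h | h
      · rw [if_neg h.ne, if_pos h, zero_add, mul_comm]
        exact mul_le_mul_of_nonneg_right (hsz i k h) (hm i).le
      · rw [h, hd, if_pos rfl, if_neg (lt_irrefl _)]
        simp
      · rw [hz i k h, if_neg h.ne', if_neg (not_lt.2 h.le)]
        simp
    refine (Finset.sum_le_sum fun i _ => h7 i).trans (le_of_eq ?_)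
    rw [Finset.sum_add_distrib, Finset.sum_ite_eq' Finset.univ k (fun _ => m k),
      if_pos (Finset.mem_univ _), Finset.mul_sum, Finset.sum_filter]
  have h8 := comb5 hB hKpd hh hKmin m hm hch k
  refine le_trans ?_ h8
  nlinarith [h5.trans h6]

/-- A polynomial inequality. -/
theorem poly6 {a : ℝ} (h1 : 9 / 20 ≤ a) (h2 : a ≤ 1) : 37 / 324 ≤ a * (1 - a / 3) ^ 5 := by
  have key : ∀ lo hi : ℝ, 0 ≤ lo → hi ≤ 1 → lo ≤ a → a ≤ hi →
      lo * (1 - hi / 3) ^ 5 ≤ a * (1 - a / 3) ^ 5 := by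
    intro lo hi h0 h3 h4 h5
    have : (1 - hi / 3) ^ 5 ≤ (1 - a / 3) ^ 5 := pow_le_pow_left₀ (by linarith) (by linarith) 5
    have h6 : 0 ≤ (1 - hi / 3) ^ 5 := pow_nonneg (by linarith) 5
    exact mul_le_mul h4 this h6 (by linarith)
  rcases le_or_gt a (3 / 5) with h3 | h3
  · exact le_trans (by norm_num) (key (9 / 20) (3 / 5) (by norm_num) (by norm_num) h1 h3)
  · rcases le_or_gt a (4 / 5) with h4 | h4
    · exact le_trans (by norm_num) (key (3 / 5) (4 / 5) (by norm_num) (by norm_num) h3.le h4)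
    · rcases le_or_gt a (9 / 10) with h5 | h5
      · exact le_trans (by norm_num) (key (4 / 5) (9 / 10) (by norm_num) (by norm_num) h4.le h5)
      · exact le_trans (by norm_num) (key (9 / 10) 1 (by norm_num) (by norm_num) h5.le h2)

end Pool.Agent.K3h69.KB
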