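import Pool.Agent.K3h69.KB.Lem2

/-! Project KB: the key inequality for `n = 6`, and the summary for all `n ≤ 6`. -/

set_option autoImplicit false

namespace Pool.Agent.K3h69.KB

open Matrix Pool.Agent.R895 Complex

/-- The determinant of the projected lattice of rank five. -/
theorem tail5 (hB : S_BLI) {m : Fin 6 → ℝ} {x : Fin 6 → Fin 6 → ℂ} (hm : ∀ i, 0 < m i)
    (hd : ∀ i, x i i = 1) (hz : ∀ i j, j < i → x i j = 0)
    (hkz : ∀ (k : Fin 6) (w : Fin 6 → ℂ), IsLat w → (∃ j, k ≤ j ∧ w j ≠ 0) →
        m k ≤ ∑ i ∈ Finset.univ.filter (k ≤ ·), m i * Complex.normSq (star (x i) ⬝ᵥ w)) :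
    m 1 ^ 5 / 37 ≤ ∏ i : Fin 5, m i.succ := by
  set x' : Fin 5 → Fin 5 → ℂ := fun i j => x i.succ j.succ with hx'
  have hd' : ∀ i, x' i i = 1 := fun i => hd i.succ
  have hz' : ∀ i j, j < i → x' i j = 0 := fun i j hij => hz _ _ (by simpa using hij)
  have h1 := det5 hB (pd_dec (fun i : Fin 5 => m i.succ) x' (fun i => hm i.succ) hd' hz') (hm 1)
    (fun w hw hw0 => by
      obtain ⟨j, hj⟩ := Function.ne_iff.1 hw0
      have h2 := hkz 1 (Fin.cons 0 w) (by
        intro i
        refine Fin.cases ?_ (fun i => ?_) i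
        · exact IsEis.zero
        · exact hw i) ⟨j.succ, by
          rw [Fin.le_def]
          simp, by simpa using hj⟩
      rw [q_dec]
      refine h2.trans (le_of_eq ?_)
      rw [Finset.sum_filter, Fin.sum_univ_succ, if_neg (by decide), zero_add]
      refine Finset.sum_congr rfl fun i _ => ?_
      rw [if_pos (by rw [Fin.le_def]; simp)]
      congr 2
      rw [dotProduct, dotProduct, Fin.sum_univ_succ]
      simp [hx'])
  rwa [det_dec _ _ hd' hz', Complex.ofReal_re] at h1

theorem lemA6 (hB : S_BLI) (hKZ : S_HKZ) (hP : S_PAIR) (hN : S_NUM)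
    {M H : Matrix (Fin 6) (Fin 6) ℂ} (hM : Pd M) (hH : Pd H) {h : ℝ}
    (hh : 0 < h) (hmin : ∀ w, IsLat w → w ≠ 0 → h ≤ q H w) {J : Set (Fin 6 → ℂ)} (hJ : IsSub J)
    (hne : ∃ v, IsLat v ∧ v ∉ J) (hMJ : ∀ v, IsLat v → v ∉ J → 1 ≤ q M v) :
    h ≤ (M * H).trace.re := by
  obtain ⟨g, x, m, hg, hm, hch, hd, hz, hsz, hdec, hkz⟩ := hKZ 6 M hM
  obtain ⟨g', h1, h2, h3⟩ := hg.inv
  have hg' : IsGL g' := ⟨h1, g, hg.ent, h3, h2⟩
  have hval : ∀ w, q M (g *ᵥ w) = ∑ i, m i * Complex.normSq (star (x i) ⬝ᵥ w) := by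
    intro w
    rw [← q_conj, hdec, q_dec]
  have hmin0 : ∀ w, IsLat w → w ≠ 0 → m 0 ≤ q M (g *ᵥ w) := by
    intro w hw hw0
    obtain ⟨j, hj⟩ := Function.ne_iff.1 hw0
    have h4 := hkz 0 w hw ⟨j, Fin.zero_le _, hj⟩
    rw [hval]
    have e : Finset.univ.filter ((0 : Fin 6) ≤ ·) = Finset.univ := by
      ext i
      simp
    rwa [e] at h4
  by_cases hm0 : 1 ≤ m 0
  · have h4 := lemJ6 hB hM hH hh hmin (fun v hv hv0 => by
      have e : v = g *ᵥ (g' *ᵥ v) := by rw [mulVec_mulVec, h2, one_mulVec]
      rw [e]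
      exact hm0.trans (hmin0 _ (hg'.mulVec hv) (hg'.mulVec_ne hv0)))
    linarith
  push Not at hm0
  rw [trace_dec h2 hdec H]
  set K := g' * H * g'ᴴ with hK
  have hKe : K = g'ᴴᴴ * H * g'ᴴ := by rw [conjTranspose_conjTranspose]
  have hKpd : Pd K := by rw [hKe]; exact hH.conj hg'.conjTranspose
  have hKmin : ∀ w, IsLat w → w ≠ 0 → h ≤ q K w := by
    intro w hw hw0
    rw [hKe, q_conj]
    exact hmin _ (hg'.conjTranspose.mulVec hw) (hg'.conjTranspose.mulVec_ne hw0)
  have h4 : ∑ i, m i * hs 6 K i ≤ ∑ i, m i * q K (x i) :=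
    Finset.sum_le_sum fun i _ => mul_le_mul_of_nonneg_left (hs_le 6 K hKpd x hd hz i) (hm i).le
  refine le_trans ?_ h4
  have p0 := hm 0
  have p1 := hm 1
  -- the first basis vector is in `J`
  have hb0 : g *ᵥ (Pi.single 0 1) ∈ J := by
    by_contra hcon
    have h5 := hMJ _ (hg.mulVec (isLat_single 0)) hcon
    rw [q_single M g x m hdec 0, Fin.sum_univ_six, hd, hz 1 0 (by decide), hz 2 0 (by decide),
      hz 3 0 (by decide), hz 4 0 (by decide), hz 5 0 (by decide)] at h5
    simp only [map_one, map_zero, mul_one, mul_zero, add_zero] at h5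
    linarith
  by_cases hb1 : g *ᵥ (Pi.single 1 1) ∈ J
  · -- the first two basis vectors are in `J`
    obtain ⟨k, hk⟩ : ∃ k, g *ᵥ (Pi.single k 1) ∉ J := by
      by_contra hcon
      push Not at hcon
      obtain ⟨v, hv, hvJ⟩ := hne
      apply hvJ
      have h5 : v = ∑ k, (g' *ᵥ v) k • (g *ᵥ (Pi.single k 1)) := by
        have h6 : g' *ᵥ v = ∑ k, (g' *ᵥ v) k • (Pi.single k 1 : Fin 6 → ℂ) := by
          ext i
          simp [Finset.sum_apply, Pi.single_apply]
        have h7 : g *ᵥ (g' *ᵥ v) = v := by rw [mulVec_mulVec, h2, one_mulVec]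
        calc v = g *ᵥ (g' *ᵥ v) := h7.symm
          _ = g *ᵥ (∑ k, (g' *ᵥ v) k • (Pi.single k 1 : Fin 6 → ℂ)) := by rw [← h6]
          _ = _ := by
              rw [mulVec_sum]
              exact Finset.sum_congr rfl fun k _ => mulVec_smul _ _ _
      rw [h5]
      exact hJ.sum _ _ fun k _ => hJ.smul _ (hg'.mulVec hv k) _ (hcon k)
    have hk0 : k ≠ 0 := fun e => hk (by rw [e]; exact hb0)
    have hk1 : k ≠ 1 := fun e => hk (by rw [e]; exact hb1)
    have c0 := hch 0 1 rfl
    have c1 := hch 1 2 rfl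
    have c2 := hch 2 3 rfl
    have c3 := hch 3 4 rfl
    have c4 := hch 4 5 rfl
    have p2 := hm 2
    have p3 := hm 3
    have p4 := hm 4
    have p5 := hm 5
    -- the last four coordinates
    have htail : m 2 * Complex.normSq (x 2 k) + m 3 * Complex.normSq (x 3 k) +
        m 4 * Complex.normSq (x 4 k) + m 5 * Complex.normSq (x 5 k) ≤
        m 5 + (m 2 + m 3 + m 4) / 3 := by
      have hk' : k = 2 ∨ k = 3 ∨ k = 4 ∨ k = 5 := by
        have := k.2
        have e0 : (k : ℕ) ≠ 0 := fun e => hk0 (Fin.ext e)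
        have e1 : (k : ℕ) ≠ 1 := fun e => hk1 (Fin.ext e)
        rcases (by omega : (k : ℕ) = 2 ∨ (k : ℕ) = 3 ∨ (k : ℕ) = 4 ∨ (k : ℕ) = 5) with e | e | e | e
        · exact Or.inl (Fin.ext e)
        · exact Or.inr (Or.inl (Fin.ext e))
        · exact Or.inr (Or.inr (Or.inl (Fin.ext e)))
        · exact Or.inr (Or.inr (Or.inr (Fin.ext e)))
      rcases hk' with rfl | rfl | rfl | rfl
      · rw [hd 2, hz 3 2 (by decide), hz 4 2 (by decide), hz 5 2 (by decide)]
        simp only [map_one, map_zero]
        linarith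
      · have s2 := mul_le_mul_of_nonneg_left (hsz 2 3 (by decide)) p2.le
        rw [hd 3, hz 4 3 (by decide), hz 5 3 (by decide)]
        simp only [map_one, map_zero]
        linarith
      · have s2 := mul_le_mul_of_nonneg_left (hsz 2 4 (by decide)) p2.le
        have s3 := mul_le_mul_of_nonneg_left (hsz 3 4 (by decide)) p3.le
        rw [hd 4, hz 5 4 (by decide)]
        simp only [map_one, map_zero]
        linarith
      · have s2 := mul_le_mul_of_nonneg_left (hsz 2 5 (by decide)) p2.le
        have s3 := mul_le_mul_of_nonneg_left (hsz 3 5 (by decide)) p3.le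
        have s4 := mul_le_mul_of_nonneg_left (hsz 4 5 (by decide)) p4.le
        rw [hd 5]
        simp only [map_one]
        linarith
    -- the value on a vector congruent to the basis vector
    have hw : ∀ v₀ v₁ : ℂ, IsEis v₀ → IsEis v₁ →
        1 ≤ m 0 * Complex.normSq (star (x 0 k) - v₀ - star (x 0 1) * v₁) +
          m 1 * Complex.normSq (star (x 1 k) - v₁) + (m 5 + (m 2 + m 3 + m 4) / 3) := by
      intro v₀ v₁ hv₀ hv₁
      set w : Fin 6 → ℂ := Pi.single k 1 - v₁ • Pi.single 1 1 - v₀ • Pi.single 0 1 with hwd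
      have hwl : IsLat w := by
        intro i
        exact ((isLat_single k i).sub (hv₁.mul (isLat_single 1 i))).sub
          (hv₀.mul (isLat_single 0 i))
      have hwJ : g *ᵥ w ∉ J := by
        intro hcon
        apply hk
        have e : g *ᵥ (Pi.single k 1) = g *ᵥ w + v₁ • (g *ᵥ (Pi.single 1 1)) +
            v₀ • (g *ᵥ (Pi.single 0 1)) := by
          rw [hwd, mulVec_sub, mulVec_sub, mulVec_smul, mulVec_smul]
          abel
        rw [e]
        exact hJ.add _ (hJ.add _ hcon _ (hJ.smul _ hv₁ _ hb1)) _ (hJ.smul _ hv₀ _ hb0)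
      have h5 := hMJ _ (hg.mulVec hwl) hwJ
      have hdot : ∀ i, star (x i) ⬝ᵥ w = star (x i k) - v₁ * star (x i 1) - v₀ * star (x i 0) := by
        intro i
        rw [hwd, dotProduct_sub, dotProduct_sub, dotProduct_smul, dotProduct_smul,
          dotProduct_single, dotProduct_single, dotProduct_single]
        simp only [Pi.star_apply, mul_one, smul_eq_mul]
      rw [hval, Fin.sum_univ_six, hdot, hdot, hdot, hdot, hdot, hdot, hd 0, hd 1,
        hz 1 0 (by decide), hz 2 0 (by decide), hz 3 0 (by decide), hz 4 0 (by decide),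
        hz 5 0 (by decide), hz 2 1 (by decide), hz 3 1 (by decide), hz 4 1 (by decide),
        hz 5 1 (by decide)] at h5
      simp only [star_zero, star_one, mul_zero, mul_one, sub_zero] at h5
      have hst : ∀ z : ℂ, Complex.normSq (star z) = Complex.normSq z := Complex.normSq_conj
      rw [hst (x 2 k), hst (x 3 k), hst (x 4 k), hst (x 5 k)] at h5
      have e1 : star (x 0 k) - v₁ * star (x 0 1) - v₀ = star (x 0 k) - v₀ - star (x 0 1) * v₁ := by
        ring
      rw [e1] at h5
      linarith
    have hfin := hN K hKpd h hh hKmin m hm hch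
    refine le_trans ?_ hfin
    have hR : 1 ≤ m 5 + (m 2 + m 3 + m 4) / 3 + min ((m 0 + m 1) / 3) (m 0 / 6 + m 1 / 2) := by
      -- simple rounding
      have hst : ∀ z : ℂ, Complex.normSq (star z) = Complex.normSq z := Complex.normSq_conj
      have hA : 1 ≤ m 5 + (m 2 + m 3 + m 4) / 3 + (m 0 + m 1) / 3 := by
        have h5 := hw 0 0 IsEis.zero IsEis.zero
        simp only [mul_zero, sub_zero] at h5
        rw [hst, hst] at h5
        have hkp0 : (0 : Fin 6) < k := Fin.pos_of_ne_zero hk0
        have hkp1 : (1 : Fin 6) < k := by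
          rw [Fin.lt_def]
          have e0 : (k : ℕ) ≠ 0 := fun e => hk0 (Fin.ext e)
          have e1 : (k : ℕ) ≠ 1 := fun e => hk1 (Fin.ext e)
          have : ((1 : Fin 6) : ℕ) = 1 := rfl
          omega
        have s0 := mul_le_mul_of_nonneg_left (hsz 0 k hkp0) p0.le
        have s1 := mul_le_mul_of_nonneg_left (hsz 1 k hkp1) p1.le
        linarith
      rcases le_or_gt (m 1) (m 0) with h5 | h5
      · have hBb : 1 ≤ m 5 + (m 2 + m 3 + m 4) / 3 + (m 0 / 6 + m 1 / 2) := by
          obtain ⟨v₀, v₁, hv₀, hv₁, hv⟩ := hP (star (x 0 1)) (m 1 / m 0) (by positivity)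
            ((div_le_one p0).2 h5) (by
              intro e he
              have h6 := hmin0 (Pi.single 1 1 - e • Pi.single 0 1) (fun i =>
                (isLat_single 1 i).sub (he.mul (isLat_single 0 i))) (by
                  intro h0
                  have := congrFun h0 1
                  simp at this)
              have hdot : ∀ i, star (x i) ⬝ᵥ (Pi.single 1 1 - e • Pi.single 0 1) =
                  star (x i 1) - e * star (x i 0) := by
                intro i
                rw [dotProduct_sub, dotProduct_smul, dotProduct_single, dotProduct_single]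
                simp only [Pi.star_apply, mul_one, smul_eq_mul]
              rw [hval, Fin.sum_univ_six, hdot, hdot, hdot, hdot, hdot, hdot, hd 0, hd 1,
                hz 1 0 (by decide), hz 2 0 (by decide), hz 3 0 (by decide), hz 4 0 (by decide),
                hz 5 0 (by decide), hz 2 1 (by decide), hz 3 1 (by decide), hz 4 1 (by decide),
                hz 5 1 (by decide)] at h6
              simp only [star_zero, star_one, mul_zero, mul_one, sub_zero, map_zero, map_one,
                add_zero] at h6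
              have h7 : 1 - m 1 / m 0 = (m 0 - m 1) / m 0 := by
                rw [sub_div, div_self p0.ne']
              rw [h7, div_le_iff₀ p0]
              linarith) (star (x 0 k)) (star (x 1 k))
          have h6 := hw v₀ v₁ hv₀ hv₁
          have h7 := mul_le_mul_of_nonneg_left hv p0.le
          have h8 : m 0 * (1 / 6 + m 1 / m 0 / 2) = m 0 / 6 + m 1 / 2 := by
            field_simp
          have h9 : m 0 * (m 1 / m 0 * Complex.normSq (star (x 1 k) - v₁)) =
              m 1 * Complex.normSq (star (x 1 k) - v₁) := by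
            field_simp
          rw [mul_add, h9, h8] at h7
          linarith
        rcases min_choice ((m 0 + m 1) / 3) (m 0 / 6 + m 1 / 2) with e | e <;> rw [e] <;> linarith
      · have e : min ((m 0 + m 1) / 3) (m 0 / 6 + m 1 / 2) = (m 0 + m 1) / 3 :=
          min_eq_left (by linarith)
        rw [e]
        exact hA
    nlinarith
  · -- only the first basis vector is in `J`
    have h5 := hMJ _ (hg.mulVec (isLat_single 1)) hb1
    rw [q_single M g x m hdec 1, Fin.sum_univ_six, hd, hz 2 1 (by decide),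
      hz 3 1 (by decide), hz 4 1 (by decide), hz 5 1 (by decide)] at h5
    simp only [map_one, map_zero, mul_one, mul_zero, add_zero] at h5
    have s0 := mul_le_mul_of_nonneg_left (hsz 0 1 (by decide)) p0.le
    have hm1 : 1 - m 0 / 3 ≤ m 1 := by linarith
    have ht := tail5 hB hm hd hz hkz
    have hD1 := det5 hB hKpd.tl hh (min_tl hKmin)
    rw [← prod_hs 5 _ hKpd.tl] at hD1
    have hD0 := det6 hB hKpd hh hKmin
    rw [← prod_hs 6 _ hKpd] at hD0
    have hspos : ∀ i, 0 < hs 6 K i := hs_pos 6 K hKpd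
    have hspos' : ∀ i, 0 < hs 5 (tl K) i := hs_pos 5 _ hKpd.tl
    have hm15 : (1 - m 0 / 3) ^ 5 ≤ m 1 ^ 5 := pow_le_pow_left₀ (by linarith) hm1 5
    rcases le_or_gt (m 0) (9 / 20) with h6 | h6
    · have h7 := amgm 5 (by norm_num) (fun i => m i.succ * hs 5 (tl K) i)
        (fun i => mul_nonneg (hm _).le (hspos' i).le)
      rw [Finset.prod_mul_distrib] at h7
      set s := ∑ i : Fin 5, m i.succ * hs 5 (tl K) i with hsd
      have hs0 : 0 ≤ s := Finset.sum_nonneg fun i _ => mul_nonneg (hm _).le (hspos' i).le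
      have hsum : s ≤ ∑ i, m i * hs 6 K i := by
        rw [Fin.sum_univ_succ (f := fun i => m i * hs 6 K i)]
        simp only [hs_succ]
        have := mul_nonneg p0.le (hspos 0).le
        linarith
      refine le_trans ?_ hsum
      by_contra hcon
      push Not at hcon
      have h8 : (17 / 20 : ℝ) ^ 5 / 37 * (h ^ 5 / 37) ≤
          (∏ i : Fin 5, m i.succ) * ∏ i, hs 5 (tl K) i := by
        apply mul_le_mul _ hD1 (by positivity)
          (Finset.prod_nonneg fun i _ => (hm _).le)
        refine le_trans ?_ ht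
        have : (17 / 20 : ℝ) ^ 5 ≤ m 1 ^ 5 := pow_le_pow_left₀ (by norm_num) (by linarith) 5
        linarith
      have h9 : (s / (5 : ℕ)) ^ 5 ≤ (h / 5) ^ 5 := by
        apply pow_le_pow_left₀ (by positivity)
        push_cast
        linarith
      have h10 := h8.trans (h7.trans h9)
      have h11 : 0 < h ^ 5 := by positivity
      have h12 : (h / 5) ^ 5 = (1 / 5) ^ 5 * h ^ 5 := by ring
      rw [h12] at h10
      nlinarith
    · have h7 := amgm 6 (by norm_num) (fun i => m i * hs 6 K i)
        (fun i => mul_nonneg (hm _).le (hspos i).le)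
      rw [Finset.prod_mul_distrib] at h7
      set s := ∑ i, m i * hs 6 K i with hsd
      have hs0 : 0 ≤ s := Finset.sum_nonneg fun i _ => mul_nonneg (hm _).le (hspos i).le
      by_contra hcon
      push Not at hcon
      have hpoly := poly6 h6.le hm0.le
      have hprod : 1 / 324 ≤ ∏ i, m i := by
        rw [Fin.prod_univ_succ]
        have h13 : m 0 * ((1 - m 0 / 3) ^ 5 / 37) ≤ m 0 * ∏ i : Fin 5, m i.succ := by
          apply mul_le_mul_of_nonneg_left _ p0.le
          refine le_trans ?_ ht
          linarith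
        have h14 : m 0 * ((1 - m 0 / 3) ^ 5 / 37) = m 0 * (1 - m 0 / 3) ^ 5 / 37 := by ring
        linarith
      have h8 : (1 / 324 : ℝ) * (h ^ 6 / 144) ≤ (∏ i, m i) * ∏ i, hs 6 K i :=
        mul_le_mul hprod hD0 (by positivity) (Finset.prod_nonneg fun i _ => (hm _).le)
      have h9 : (s / (6 : ℕ)) ^ 6 < (h / 6) ^ 6 := by
        apply pow_lt_pow_left₀ _ (by positivity) (by norm_num)
        push_cast
        linarith
      have h10 := lt_of_le_of_lt (h8.trans h7) h9
      have h12 : (h / 6) ^ 6 = 1 / 46656 * h ^ 6 := by ring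
      rw [h12] at h10
      linarith

end Pool.Agent.K3h69.KB
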