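import Pool.Agent.K3h69.KB.Lem3
import Pool.Agent.R895.Gen

/-! Project KB: the key inequality for all `n ≤ 6` and the decomposition theorems. -/

set_option autoImplicit false

namespace Pool.Agent.K3h69.KB

open Matrix Pool.Agent.R895

variable {n : ℕ}

/-- The statements proved in the bricks. -/
structure Bricks : Prop where
  bli : S_BLI
  hkz : S_HKZ
  pair : S_PAIR
  num : S_NUM

theorem lemB_pd (B : Bricks) (hn : n ≤ 6) {M H : Matrix (Fin n) (Fin n) ℂ} (hM : Pd M)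
    (hH : Pd H) {h : ℝ} (hh : 0 < h) (hmin : ∀ w, IsLat w → w ≠ 0 → h ≤ q H w)
    {J : Set (Fin n → ℂ)} (hJ : IsSub J) (hne : ∃ v, IsLat v ∧ v ∉ J)
    (hMJ : ∀ v, IsLat v → v ∉ J → 1 ≤ q M v) : h ≤ (M * H).trace.re := by
  rcases Nat.lt_or_ge 4 n with h4 | h4
  · rcases Nat.lt_or_ge 5 n with h5 | h5
    · obtain rfl : n = 6 := by omega
      exact lemA6 B.bli B.hkz B.pair B.num hM hH hh hmin hJ hne hMJ
    · obtain rfl : n = 5 := by omega
      exact lemA5 B.bli hM hH hh hmin hJ hne hMJ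
  · exact lemA_pd h4 hM hH hh hmin hJ hne hMJ

/-- **The key inequality.** -/
theorem lemB (B : Bricks) (hn : n ≤ 6) {M H : Matrix (Fin n) (Fin n) ℂ} (hM : Psd M)
    (hH : Pd H) {h : ℝ} (hh : 0 < h) (hmin : ∀ w, IsLat w → w ≠ 0 → h ≤ q H w)
    {J : Set (Fin n → ℂ)} (hJ : IsSub J) (hne : ∃ v, IsLat v ∧ v ∉ J)
    (hMJ : ∀ v, IsLat v → v ∉ J → 1 ≤ q M v) : h ≤ (M * H).trace.re := by
  refine trace_lim fun ε hε => ?_
  obtain ⟨h1, h2⟩ := hM.add_one hε
  refine lemB_pd B hn h1 hH hh hmin hJ hne fun v hv hvJ => ?_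
  rw [h2]
  have h3 := hMJ v hv hvJ
  have h4 : 0 ≤ ∑ i, Complex.normSq (v i) := Finset.sum_nonneg fun i _ => Complex.normSq_nonneg _
  nlinarith

/-- The main decomposition theorem. -/
theorem RC_of_lt (B : Bricks) {J : Set (Fin n → ℂ)} (hn : n ≤ 6) {H : Matrix (Fin n) (Fin n) ℂ}
    (hH : Pd H) (hHe : ∀ i j, IsEis (H i j)) {b h : ℝ} (hb : 0 ≤ b) (hbh : b < h)
    (hmin : ∀ w, IsLat w → w ≠ 0 → h ≤ q H w) (hJ : IsSub J) (hne : ∃ v, IsLat v ∧ v ∉ J) :
    ((fun i j => H i j : Fin n → Fin n → ℂ), b) ∈ RC J := by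
  have hh : 0 < h := lt_of_le_of_lt hb hbh
  set δ : ℝ := (h - b) / (2 * h) with hδ
  have hδ0 : 0 < δ := div_pos (by linarith) (by linarith)
  have hδ1 : δ < 1 := by
    rw [hδ, div_lt_one (by linarith)]
    linarith
  have hδh : (1 - δ) * h = (h + b) / 2 := by
    rw [hδ]
    field_simp
    ring
  obtain ⟨k, hk, hpd, hq⟩ := hH.shrink hδ0 hδ1
  refine mem_RC hH.1 hHe hk hpd (g := (h + b) / 2) (by linarith) fun M hM hM1 => ?_
  refine lemB B hn hM hpd (by linarith) (fun w hw hw0 => ?_) hJ hne hM1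
  rw [← hδh]
  exact le_trans (mul_le_mul_of_nonneg_left (hmin w hw hw0) (by linarith)) (hq w)

/-- The decomposition theorem for `J = 0`, where equality is allowed. -/
theorem RC_zero (B : Bricks) (hn0 : 2 ≤ n) (hn : n ≤ 6) {H : Matrix (Fin n) (Fin n) ℂ}
    (hH : Pd H) (hHe : ∀ i j, IsEis (H i j)) {h : ℝ} (hh : 0 < h)
    (hmin : ∀ w, IsLat w → w ≠ 0 → h ≤ q H w) :
    ((fun i j => H i j : Fin n → Fin n → ℂ), h) ∈ RC {0} := by
  obtain ⟨k, hk, hpd, hq⟩ := hH.shrink (δ := 1 / 16) (by norm_num) (by norm_num)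
  refine mem_RC hH.1 hHe hk hpd (g := 15 / 14 * h) (by linarith) fun M hM hM1 => ?_
  have h1 := lemJ B.bli hn0 hn hM hpd (h := 15 / 16 * h) (by linarith) (fun w hw hw0 => by
    refine le_trans ?_ (hq w)
    have := hmin w hw hw0
    linarith) (fun v hv hv0 => hM1 v hv hv0)
  linarith

end Pool.Agent.K3h69.KB
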